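import Pool.Agent.Q157.PH.Random
import Pool.Agent.Q157.PH.Numeric
import Pool.Agent.Q157.PH.Dickman

/-!
# MP_5d876b_co: the phantom minimum-degree-one game

PhantomBreaker attacks a random vertex which Maker has not tried, and as soon as Maker tries it
he attacks at once a new random one. Against this strategy Maker wins with probability at most
`ρ(b/2a) + o(1)`, `ρ` Dickman's function, which is less than `1/m!` for `b/2a = m ≥ 2`.
-/

namespace Pool.Agent.Results.MP_5d876b_co.DickmanBound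

open Pool.Agent.Q157.PH MeasureTheory Filter

/-- In the `(a:b)` game on `K_n` Maker has a randomized strategy which wins with probability at
least `c` against every strategy of PhantomBreaker. -/
def Guarantees (a b n : ℕ) (c : ℝ) : Prop :=
  ∃ (Ω : Type) (_ : MeasurableSpace Ω) (μ : Measure Ω) (_ : IsProbabilityMeasure μ)
    (σ : Ω → Hist (Fin n) → Edge (Fin n)), IsRandomized σ ∧
    ∀ β : Hist (Fin n) → Finset (Edge (Fin n)), IsBreaker a b β →
      c ≤ μ.real {ω | MakerWins a (σ ω) β}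

lemma bound_of_phi {a b n K : ℕ} (ha : 1 ≤ a) (hn : 1 ≤ n) (hK : n - 1 ≤ (K + 1) * b)
    (Φ : ℕ → ℝ) (hanti : Antitone Φ) (h0 : ∀ r, 0 ≤ Φ r)
    (hΦ : ∀ r, 1 ≤ Φ r ∨
      (0 < r ∧ ∑ j ∈ Finset.range (2 * a * K), Φ (r - j - 2 * a) ≤ r * Φ r))
    {c : ℝ} (hc : Guarantees a b n c) : c ≤ Φ (n - 2 * a) := by
  obtain ⟨Ω, _, μ, _, σ, hσ, hβ⟩ := hc
  have : Nonempty (Fin n) := ⟨⟨0, hn⟩⟩
  obtain ⟨β, h1, h2⟩ := exists_breaker (V := Fin n) ha (by simpa using hK) Φ hanti h0 hΦ μ hσ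
  rw [Fintype.card_fin] at h2
  exact (hβ β h1).trans h2

lemma first (a m : ℕ) (ha : 1 ≤ a) (hm : 2 ≤ m) :
    ∀ᶠ n in atTop, ∀ c : ℝ, Guarantees a (2 * a * m) n c → c ≤ 10 / 11 / (m.factorial : ℝ) := by
  rw [eventually_atTop]
  refine ⟨2 * a * m * ((m + 1) * (12 * m + 1)) + 2 * a + 1, ?_⟩
  intro n hn c hc
  have hb : 0 < 2 * a * m := by positivity
  set K := (n - 1) / (2 * a * m) with hK
  have hK1 : (m + 1) * (12 * m + 1) ≤ K := by
    rw [hK, Nat.le_div_iff_mul_le hb, mul_comm]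
    omega
  have hK2 : n - 1 ≤ (K + 1) * (2 * a * m) := by
    have := Nat.lt_div_mul_add hb (a := n - 1)
    rw [← hK] at this
    rw [Nat.add_mul, Nat.one_mul]
    exact this.le
  have hK3 : K * (2 * a * m) ≤ n - 1 := Nat.div_mul_le_self _ _
  obtain ⟨Φ, h1, h2, h3, h4⟩ := exists_phi a m K ha hm (by omega)
  have h5 := bound_of_phi ha (by omega) hK2 Φ h1 h2 h3 hc
  refine h5.trans (h4 _ ?_)
  have e1 : m * (2 * a * (K + 1)) = K * (2 * a * m) + 2 * a * m := by ring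
  have e2 : 2 * a * (m + 1) = 2 * a * m + 2 * a := by ring
  rw [e1, e2]
  omega

/-- **Main theorem.** -/
theorem result :
    (∀ a m : ℕ, 1 ≤ a → 2 ≤ m → ∀ᶠ n in atTop, ∀ c : ℝ,
      Guarantees a (2 * a * m) n c → c ≤ 10 / 11 / (m.factorial : ℝ)) ∧
    (∀ a m : ℕ, 1 ≤ a → 2 ≤ m → ¬ ∃ ε : ℕ → ℝ, Tendsto ε atTop (nhds 0) ∧
      ∀ᶠ n in atTop, Guarantees a (2 * a * m) n ((1 - ε n) * (1 / (m.factorial : ℝ)))) ∧
    (∀ w : ℝ → ℝ, Antitone w → (∀ u, 0 ≤ w u) → (∀ u < 1, 1 ≤ w u) →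
      (∀ u, 1 ≤ u → ∫ x in (u - 1)..u, w x ≤ u * w u) →
      ∀ a b n : ℕ, 1 ≤ a → 1 ≤ b → 1 ≤ n → ∀ c : ℝ, Guarantees a b n c →
        c ≤ w (((n - 2 * a : ℕ) : ℝ) / ((2 * a * ((n - 1) / b + 1) : ℕ) : ℝ))) := by
  refine ⟨first, ?_, ?_⟩
  · rintro a m ha hm ⟨ε, hε, hG⟩
    have h1 := first a m ha hm
    have h2 : ∀ᶠ n in atTop, ε n < 1 / 11 := hε.eventually_lt_const (by norm_num)
    obtain ⟨n, hn1, hn2, hn3⟩ := (h1.and (h2.and hG)).exists
    have h3 := hn1 _ hn3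
    have h4 : (0 : ℝ) < 1 / (m.factorial : ℝ) := by positivity
    have h5 : 10 / 11 / (m.factorial : ℝ) = 10 / 11 * (1 / (m.factorial : ℝ)) := by ring
    rw [h5] at h3
    have h6 := le_of_mul_le_mul_right h3 h4
    linarith
  · intro w hw h0 h1 hint a b n ha hb hn c hc
    have hq : 0 < 2 * a * ((n - 1) / b + 1) := by positivity
    refine bound_of_phi (K := (n - 1) / b) ha hn ?_
      (fun r => w ((r : ℝ) / ((2 * a * ((n - 1) / b + 1) : ℕ) : ℝ))) ?_ ?_ ?_ hc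
    · have := Nat.lt_div_mul_add (by omega : 0 < b) (a := n - 1)
      rw [Nat.add_mul, Nat.one_mul]
      exact this.le
    · intro r r' hrr
      apply hw
      apply div_le_div_of_nonneg_right _ (Nat.cast_nonneg _)
      exact_mod_cast hrr
    · intro r; exact h0 _
    · intro r
      exact supersolution hw h0 h1 hint (N := 2 * a * ((n - 1) / b)) (a := a) (by ring) hq r

end Pool.Agent.Results.MP_5d876b_co.DickmanBound
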